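import Mathlib

/-!
MP_3e1131_co, Q1 (yes): there is a function `C` such that for every finite `S ⊆ ℕ` with `n ≥ 1`
elements Maker has a `C(n)`-move strategy in the generalized van der Waerden game `G(S)`.
-/

namespace Pool.Agent.Results.MP_3e1131_co.UniformBound

open Finset

/-- `T` contains a copy `a S + b` of `S`, with an integer `a ≥ 1` and `b ∈ ℤ` -/
def HasCopy (S T : Finset ℕ) : Prop :=
  ∃ a : ℕ, 1 ≤ a ∧ ∃ b : ℤ, ∀ s ∈ S, ∃ t ∈ T, (t : ℤ) = a * s + b

/-- The player to move owns `M`, the opponent owns `B`; `FirstWins C N M B` says that the player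
to move can reach a set with property `C` using at most `N` further selections of his own, against
every play of the opponent (one new number is selected in each move). -/
def FirstWins (C : Finset ℕ → Prop) : ℕ → Finset ℕ → Finset ℕ → Prop
  | 0, M, _ => C M
  | N + 1, M, B => C M ∨ ∃ x, x ∉ M ∧ x ∉ B ∧
      ∀ y, y ∉ insert x M → y ∉ B → FirstWins C N (insert x M) (insert y B)

/-- Maker, moving first on the board of all natural numbers, has an `N`-move strategy for `S` -/
def HasStrategy (S : Finset ℕ) (N : ℕ) : Prop := FirstWins (HasCopy S) N ∅ ∅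

/-- the owner of `M`, moving second, wins with `N` own selections -/
def SecondWins (C : Finset ℕ → Prop) : ℕ → Finset ℕ → Finset ℕ → Prop
  | 0, M, _ => C M
  | N + 1, M, B => C M ∨ ∀ x, x ∉ M → x ∉ B →
      ∃ y, y ∉ M ∧ y ∉ insert x B ∧ SecondWins C N (insert y M) (insert x B)

theorem HasCopy.mono {S T T' : Finset ℕ} (h : HasCopy S T) (hT : T ⊆ T') : HasCopy S T' := by
  obtain ⟨a, ha, b, hb⟩ := h
  refine ⟨a, ha, b, fun s hs => ?_⟩
  obtain ⟨t, ht, e⟩ := hb s hs
  exact ⟨t, hT ht, e⟩

theorem fresh (A B : Finset ℕ) : ∃ x, x ∉ A ∧ x ∉ B := by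
  obtain ⟨x, hx⟩ := Infinite.exists_notMem_finset (A ∪ B)
  rw [Finset.mem_union, not_or] at hx
  exact ⟨x, hx.1, hx.2⟩

theorem FirstWins.mono_prop {C C' : Finset ℕ → Prop} (h : ∀ T, C T → C' T) : ∀ (N : ℕ)
    (M B : Finset ℕ), FirstWins C N M B → FirstWins C' N M B := by
  intro N
  induction N with
  | zero => intro M B hM; exact h _ hM
  | succ N ih =>
    intro M B hM
    rcases hM with hM | ⟨x, h1, h2, h3⟩
    · exact Or.inl (h _ hM)
    · exact Or.inr ⟨x, h1, h2, fun y hy1 hy2 => ih _ _ (h3 y hy1 hy2)⟩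

theorem FirstWins.succ {C : Finset ℕ → Prop} : ∀ (N : ℕ) (M B : Finset ℕ),
    FirstWins C N M B → FirstWins C (N + 1) M B := by
  intro N
  induction N with
  | zero => intro M B hM; exact Or.inl hM
  | succ N ih =>
    intro M B hM
    rcases hM with hM | ⟨x, h1, h2, h3⟩
    · exact Or.inl hM
    · exact Or.inr ⟨x, h1, h2, fun y hy1 hy2 => ih _ _ (h3 y hy1 hy2)⟩

section

variable {C : Finset ℕ → Prop} {X : Finset ℕ}
  (hC : ∀ T T' : Finset ℕ, (∀ x ∈ X, x ∈ T → x ∈ T') → C T → C T')

include hC in
theorem SecondWins.mono : ∀ (N : ℕ) (M B M' B' : Finset ℕ), (∀ x ∈ X, x ∈ M → x ∈ M') →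
    (∀ x ∈ X, x ∈ B' → x ∈ B) → SecondWins C N M B → SecondWins C N M' B' := by
  intro N
  induction N with
  | zero => intro M B M' B' h1 _ h; exact hC _ _ h1 h
  | succ N ih =>
    intro M B M' B' h1 h2 h
    rcases h with h | h
    · exact Or.inl (hC _ _ h1 h)
    · right
      intro x hxM hxB
      -- the move shown to the old strategy
      obtain ⟨x0, hx0M, hx0B, hx0⟩ : ∃ x0, x0 ∉ M ∧ x0 ∉ B ∧
          ∀ z ∈ X, z ∈ insert x B' → z ∈ insert x0 B := by
        by_cases hc : x ∈ X ∧ x ∉ B
        · refine ⟨x, fun hm => hxM (h1 x hc.1 hm), hc.2, ?_⟩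
          intro z hz hz'
          rcases Finset.mem_insert.mp hz' with rfl | hz'
          · exact Finset.mem_insert_self _ _
          · exact Finset.mem_insert_of_mem (h2 z hz hz')
        · obtain ⟨x0, h3, h4⟩ := fresh M B
          refine ⟨x0, h3, h4, ?_⟩
          intro z hz hz'
          apply Finset.mem_insert_of_mem
          rcases Finset.mem_insert.mp hz' with rfl | hz'
          · by_contra hzB
            exact hc ⟨hz, hzB⟩
          · exact h2 z hz hz'
      obtain ⟨y, hy1, hy2, hy3⟩ := h x0 hx0M hx0B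
      obtain ⟨w, hw1, hw2, hw⟩ : ∃ w, w ∉ M' ∧ w ∉ insert x B' ∧
          ∀ z ∈ X, z ∈ insert y M → z ∈ insert w M' := by
        by_cases hc : y ∈ X ∧ y ∉ M'
        · refine ⟨y, hc.2, fun hm => hy2 (hx0 y hc.1 hm), ?_⟩
          intro z hz hz'
          rcases Finset.mem_insert.mp hz' with rfl | hz'
          · exact Finset.mem_insert_self _ _
          · exact Finset.mem_insert_of_mem (h1 z hz hz')
        · obtain ⟨w, h3, h4⟩ := fresh M' (insert x B')
          refine ⟨w, h3, h4, ?_⟩
          intro z hz hz'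
          apply Finset.mem_insert_of_mem
          rcases Finset.mem_insert.mp hz' with rfl | hz'
          · by_contra hzB
            exact hc ⟨hz, hzB⟩
          · exact h1 z hz hz'
      exact ⟨w, hw1, hw2, ih _ _ _ _ hw hx0 hy3⟩

include hC in
/-- if the first player cannot win and the moves outnumber the free points of `X`, the other
player, moving second, wins -/
theorem second_of_not (hX : ∀ M B : Finset ℕ, (∀ x ∈ X, x ∈ M ∨ x ∈ B) → C M ∨ C B) :
    ∀ (N : ℕ) (M B : Finset ℕ), #(X \ (M ∪ B)) ≤ N → ¬ FirstWins C N M B →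
      SecondWins C N B M := by
  intro N
  induction N with
  | zero =>
    intro M B hc hM
    have h0 : X \ (M ∪ B) = ∅ := Finset.card_eq_zero.mp (Nat.le_zero.mp hc)
    have hsub : X ⊆ M ∪ B := Finset.sdiff_eq_empty_iff_subset.mp h0
    rcases hX M B (fun x hx => Finset.mem_union.mp (hsub hx)) with h | h
    · exact absurd h hM
    · exact h
  | succ N ih =>
    intro M B hc hM
    unfold FirstWins at hM
    push Not at hM
    by_cases hfree : (X \ (M ∪ B)).Nonempty
    · obtain ⟨x', hx'⟩ := hfree
      right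
      intro x hxB hxM
      -- the move shown to the strategy
      obtain ⟨x0, hx0M, hx0B, hx0X, hx0⟩ : ∃ x0, x0 ∉ M ∧ x0 ∉ B ∧ x0 ∈ X ∧
          ∀ z ∈ X, z ∈ insert x M → z ∈ insert x0 M := by
        by_cases hc : x ∈ X
        · exact ⟨x, hxM, hxB, hc, fun z _ h => h⟩
        · rw [Finset.mem_sdiff, Finset.mem_union, not_or] at hx'
          refine ⟨x', hx'.2.1, hx'.2.2, hx'.1, ?_⟩
          intro z hz hz'
          rcases Finset.mem_insert.mp hz' with rfl | hz'
          · exact absurd hz hc
          · exact Finset.mem_insert_of_mem hz'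
      obtain ⟨y, hy1, hy2, hy3⟩ := hM.2 x0 hx0M hx0B
      have h1 : SecondWins C N (insert y B) (insert x0 M) := by
        refine ih _ _ ?_ hy3
        have h1 : X \ (insert x0 M ∪ insert y B) ⊆ (X \ (M ∪ B)).erase x0 := by
          intro z hz
          simp only [Finset.mem_sdiff, Finset.mem_union, Finset.mem_insert, not_or] at hz
          simp only [Finset.mem_erase, Finset.mem_sdiff, Finset.mem_union, not_or]
          exact ⟨hz.2.1.1, hz.1, hz.2.1.2, hz.2.2.2⟩
        have h2 := Finset.card_le_card h1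
        rw [Finset.card_erase_of_mem (by
          simp only [Finset.mem_sdiff, Finset.mem_union, not_or]
          exact ⟨hx0X, hx0M, hx0B⟩)] at h2
        omega
      obtain ⟨w, hw1, hw2, hw⟩ : ∃ w, w ∉ B ∧ w ∉ insert x M ∧
          ∀ z ∈ X, z ∈ insert y B → z ∈ insert w B := by
        by_cases hc : y ∈ X
        · refine ⟨y, hy2, fun hm => hy1 (hx0 y hc hm), fun z _ h => h⟩
        · obtain ⟨w, h3, h4⟩ := fresh B (insert x M)
          refine ⟨w, h3, h4, ?_⟩
          intro z hz hz'
          rcases Finset.mem_insert.mp hz' with rfl | hz'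
          · exact absurd hz hc
          · exact Finset.mem_insert_of_mem hz'
      exact ⟨w, hw1, hw2, SecondWins.mono hC N _ _ _ _ hw hx0 h1⟩
    · rw [Finset.not_nonempty_iff_eq_empty] at hfree
      have hsub : X ⊆ M ∪ B := Finset.sdiff_eq_empty_iff_subset.mp hfree
      rcases hX M B (fun x hx => Finset.mem_union.mp (hsub hx)) with h | h
      · exact absurd h hM.1
      · exact Or.inl h

include hC in
/-- strategy stealing: an extra move does not hurt -/
theorem first_of_extra : ∀ (N : ℕ) (P Q P' Q' : Finset ℕ) (y : ℕ), y ∉ Q →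
    (∀ x ∈ X, x ∈ P → x ∈ P') → (∀ x ∈ X, x ∈ Q' → x ∈ Q) → SecondWins C N (insert y P) Q →
    FirstWins C (N + 1) P' Q' := by
  intro N
  induction N with
  | zero =>
    intro P Q P' Q' y hyQ h1 h2 h
    right
    obtain ⟨w, hw1, hw2, hw⟩ : ∃ w, w ∉ P' ∧ w ∉ Q' ∧
        ∀ z ∈ X, z ∈ insert y P → z ∈ insert w P' := by
      by_cases hc : y ∈ X ∧ y ∉ P'
      · refine ⟨y, hc.2, fun hm => hyQ (h2 y hc.1 hm), ?_⟩
        intro z hz hz'
        rcases Finset.mem_insert.mp hz' with rfl | hz'
        · exact Finset.mem_insert_self _ _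
        · exact Finset.mem_insert_of_mem (h1 z hz hz')
      · obtain ⟨w, h3, h4⟩ := fresh P' Q'
        refine ⟨w, h3, h4, ?_⟩
        intro z hz hz'
        apply Finset.mem_insert_of_mem
        rcases Finset.mem_insert.mp hz' with rfl | hz'
        · by_contra hzB
          exact hc ⟨hz, hzB⟩
        · exact h1 z hz hz'
    exact ⟨w, hw1, hw2, fun _ _ _ => hC _ _ hw h⟩
  | succ N ih =>
    intro P Q P' Q' y hyQ h1 h2 h
    right
    obtain ⟨w, hw1, hw2, hw⟩ : ∃ w, w ∉ P' ∧ w ∉ Q' ∧
        ∀ z ∈ X, z ∈ insert y P → z ∈ insert w P' := by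
      by_cases hc : y ∈ X ∧ y ∉ P'
      · refine ⟨y, hc.2, fun hm => hyQ (h2 y hc.1 hm), ?_⟩
        intro z hz hz'
        rcases Finset.mem_insert.mp hz' with rfl | hz'
        · exact Finset.mem_insert_self _ _
        · exact Finset.mem_insert_of_mem (h1 z hz hz')
      · obtain ⟨w, h3, h4⟩ := fresh P' Q'
        refine ⟨w, h3, h4, ?_⟩
        intro z hz hz'
        apply Finset.mem_insert_of_mem
        rcases Finset.mem_insert.mp hz' with rfl | hz'
        · by_contra hzB
          exact hc ⟨hz, hzB⟩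
        · exact h1 z hz hz'
    refine ⟨w, hw1, hw2, ?_⟩
    intro x hx1 hx2
    rcases h with h | h
    · exact Or.inl (hC _ _ hw h)
    · obtain ⟨x0, hx0P, hx0Q, hx0⟩ : ∃ x0, x0 ∉ insert y P ∧ x0 ∉ Q ∧
          ∀ z ∈ X, z ∈ insert x Q' → z ∈ insert x0 Q := by
        by_cases hc : x ∈ X ∧ x ∉ Q
        · refine ⟨x, fun hm => hx1 (hw x hc.1 hm), hc.2, ?_⟩
          intro z hz hz'
          rcases Finset.mem_insert.mp hz' with rfl | hz'
          · exact Finset.mem_insert_self _ _
          · exact Finset.mem_insert_of_mem (h2 z hz hz')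
        · obtain ⟨x0, h3, h4⟩ := fresh (insert y P) Q
          refine ⟨x0, h3, h4, ?_⟩
          intro z hz hz'
          apply Finset.mem_insert_of_mem
          rcases Finset.mem_insert.mp hz' with rfl | hz'
          · by_contra hzB
            exact hc ⟨hz, hzB⟩
          · exact h2 z hz hz'
      obtain ⟨y', hy1, hy2, hy3⟩ := h x0 hx0P hx0Q
      exact ih _ _ _ _ y' hy2 hw hx0 hy3

include hC in
theorem first_wins (hX : ∀ M B : Finset ℕ, (∀ x ∈ X, x ∈ M ∨ x ∈ B) → C M ∨ C B) :
    FirstWins C (#X + 1) ∅ ∅ := by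
  by_cases h : FirstWins C #X ∅ ∅
  · exact h.succ
  · have h2 := second_of_not hC hX #X ∅ ∅ (by simp) h
    obtain ⟨z, hz1, hz2⟩ := fresh ∅ ∅
    refine Or.inr ⟨z, hz1, hz2, ?_⟩
    intro x hx1 hx2
    rcases Nat.eq_zero_or_pos #X with h0 | h0
    · rw [h0] at h2 ⊢
      exact hC _ _ (fun x _ hx => absurd hx (Finset.notMem_empty _)) h2
    · obtain ⟨n, hn⟩ : ∃ n, #X = n + 1 := ⟨#X - 1, by omega⟩
      rw [hn] at h2 ⊢
      rcases h2 with h2 | h2
      · exact Or.inl (hC _ _ (fun x _ hx => absurd hx (Finset.notMem_empty _)) h2)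
      · obtain ⟨y, hy1, hy2, hy3⟩ := h2 x (Finset.notMem_empty _) (Finset.notMem_empty _)
        exact first_of_extra hC n ∅ (insert x ∅) _ _ y hy2
          (fun x _ hx => absurd hx (Finset.notMem_empty _)) (fun _ _ hx => hx) hy3

end

theorem FirstWins.le {C : Finset ℕ → Prop} {M B : Finset ℕ} {N N' : ℕ} (h : N ≤ N')
    (hM : FirstWins C N M B) : FirstWins C N' M B := by
  induction N', h using Nat.le_induction with
  | base => exact hM
  | succ k _ ih => exact ih.succ

/-- **Q1 of MP_3e1131_co (yes).** There is a function `C` such that for every `n ≥ 1` and every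
set `S` of `n` natural numbers Maker has a `C n`-move strategy for `S`. -/
theorem result : ∃ C : ℕ → ℕ, ∀ n : ℕ, 1 ≤ n → ∀ S : Finset ℕ, #S = n → HasStrategy S (C n) := by
  classical
  choose ι hι hHJ using fun n : ℕ =>
    Combinatorics.Line.exists_mono_in_high_dimension (Fin n) Bool
  refine ⟨fun n => Fintype.card (ι n → Fin n) + 1, ?_⟩
  intro n _ S hS
  let s : Fin n → ℕ := fun k => S.orderEmbOfFin hS k
  let φ : (ι n → Fin n) → ℕ := fun x => ∑ i, s (x i)
  let X : Finset ℕ := Finset.univ.image φ
  have hXcard : #X + 1 ≤ Fintype.card (ι n → Fin n) + 1 :=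
    Nat.succ_le_succ Finset.card_image_le
  refine FirstWins.le hXcard (FirstWins.mono_prop (C := fun T => HasCopy S (T ∩ X)) ?_ _ _ _
    (first_wins (X := X) ?_ ?_))
  · intro T hT
    exact hT.mono Finset.inter_subset_left
  · intro T T' h hT
    refine HasCopy.mono hT ?_
    intro x hx
    rw [Finset.mem_inter] at hx ⊢
    exact ⟨h x hx.2 hx.1, hx.2⟩
  · intro M B h
    obtain ⟨l, c, hl⟩ := hHJ n fun x => decide (φ x ∈ M)
    -- the line gives a copy
    have key : ∀ T : Finset ℕ, (∀ k : Fin n, φ (l k) ∈ T) → HasCopy S (T ∩ X) := by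
      intro T hT
      let A : Finset (ι n) := Finset.univ.filter fun i => l.idxFun i = none
      have hA : 1 ≤ #A := by
        obtain ⟨i, hi⟩ := l.proper
        exact Finset.card_pos.mpr ⟨i, Finset.mem_filter.mpr ⟨Finset.mem_univ _, hi⟩⟩
      refine ⟨#A, hA, ((∑ i ∈ Finset.univ.filter (fun i => ¬ l.idxFun i = none),
        (match l.idxFun i with | some k => s k | none => 0) : ℕ) : ℤ), ?_⟩
      intro t ht
      have ht' : t ∈ Set.range (S.orderEmbOfFin hS) := by
        rw [Finset.range_orderEmbOfFin]; exact ht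
      obtain ⟨k, rfl⟩ := ht'
      refine ⟨φ (l k), Finset.mem_inter.mpr ⟨hT k, Finset.mem_image_of_mem _ (Finset.mem_univ _)⟩,
        ?_⟩
      have h1 : φ (l k) = #A * s k + ∑ i ∈ Finset.univ.filter (fun i => ¬ l.idxFun i = none),
          (match l.idxFun i with | some k => s k | none => 0) := by
        show ∑ i, s (l k i) = _
        rw [← Finset.sum_filter_add_sum_filter_not Finset.univ (fun i => l.idxFun i = none)]
        congr 1
        · rw [Finset.sum_congr rfl (g := fun _ => s k)]
          · rw [Finset.sum_const, smul_eq_mul]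
          · intro i hi
            rw [Finset.mem_filter] at hi
            rw [Combinatorics.Line.apply_def]
            show s ((l.idxFun i).getD k) = s k
            rw [hi.2]
            rfl
        · refine Finset.sum_congr rfl ?_
          intro i hi
          rw [Finset.mem_filter] at hi
          rw [Combinatorics.Line.apply_def]
          show s ((l.idxFun i).getD k) = _
          cases hh : l.idxFun i with
          | none => exact absurd hh hi.2
          | some k' => rfl
      rw [h1]
      push_cast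
      rfl
    cases c with
    | true =>
      left
      exact key M fun k => by simpa using hl k
    | false =>
      right
      refine key B fun k => ?_
      have h1 : φ (l k) ∉ M := by simpa using hl k
      rcases h _ (Finset.mem_image_of_mem _ (Finset.mem_univ (l k))) with h2 | h2
      · exact absurd h2 h1
      · exact h2

end Pool.Agent.Results.MP_3e1131_co.UniformBound
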